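import Mathlib
import Pool.Agent.R161.Az.Defs

/-!
# Part KER (helper258 for helper161): the two frames have the same kernel
-/

set_option autoImplicit false

namespace Pool.Agent.R161.Az

open Finset Filter Topology

namespace Ker

/-! ### constants -/

theorem dl_eq : dl ^ 2 + 2 * dl = 1 := by
  unfold dl
  have := Real.sq_sqrt (show (0 : ℝ) ≤ 2 by norm_num)
  nlinarith

theorem dl_kp : dl * kp = 1 + dl ^ 2 := by
  unfold dl kp
  have := Real.sq_sqrt (show (0 : ℝ) ≤ 2 by norm_num)
  nlinarith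

theorem dl_pos : 0 < dl := by
  unfold dl
  have : (1 : ℝ) < √2 := by
    rw [Real.lt_sqrt (by norm_num)]
    norm_num
  linarith

theorem dl_lt : dl < 1 := by
  nlinarith [dl_eq, dl_pos]

/-! ### the recursion for `VV` -/

/-- reduced entries -/
noncomputable def cc (i m : ℕ) : ℝ :=
  ∑ l ∈ range (i + 1), (i.choose l : ℝ) * (m.choose l) * kp ^ l * dl ^ (i - l)

theorem VV_eq (i m : ℕ) : VV i m = dl ^ m * cc i m := rfl

noncomputable def bb (i l : ℕ) : ℝ := (i.choose l : ℝ) * dl ^ (i - l)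

theorem bb_succ (i l : ℕ) : bb (i + 1) (l + 1) = bb i l + dl * bb i (l + 1) := by
  unfold bb
  rw [Nat.choose_succ_succ', Nat.add_sub_add_right]
  push_cast
  rcases Nat.lt_or_ge l i with h | h
  · have : i - l = (i - (l + 1)) + 1 := by omega
    rw [this, pow_succ]
    ring
  · rw [Nat.choose_eq_zero_of_lt (show i < l + 1 by omega)]
    push_cast
    ring

theorem cc_eq (i m N : ℕ) (h : i + 1 ≤ N) :
    cc i m = ∑ l ∈ range N, bb i l * (m.choose l) * kp ^ l := by
  have h1 : cc i m = ∑ l ∈ range (i + 1), bb i l * (m.choose l) * kp ^ l := by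
    unfold cc bb
    refine sum_congr rfl fun l _ => ?_
    ring
  rw [h1]
  refine sum_subset (range_subset_range.2 h) fun l _ hl => ?_
  rw [mem_range, not_lt] at hl
  unfold bb
  rw [Nat.choose_eq_zero_of_lt (show i < l by omega)]
  simp

theorem cc_step (i m N : ℕ) (h : i + 1 ≤ N) :
    cc i (m + 1) = cc i m + ∑ l ∈ range N, bb i (l + 1) * (m.choose l) * kp ^ (l + 1) := by
  rw [cc_eq i (m + 1) (N + 1) (by omega), cc_eq i m (N + 1) (by omega), sum_range_succ', sum_range_succ']
  have h1 : ∀ l, bb i (l + 1) * (((m + 1).choose (l + 1) : ℕ) : ℝ) * kp ^ (l + 1)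
      = bb i (l + 1) * (m.choose (l + 1)) * kp ^ (l + 1) + bb i (l + 1) * (m.choose l) * kp ^ (l + 1) := by
    intro l
    rw [Nat.choose_succ_succ']
    push_cast
    ring
  rw [sum_congr rfl fun l _ => h1 l, sum_add_distrib]
  simp only [Nat.choose_zero_right]
  ring

theorem cc_rec (i m : ℕ) :
    dl * (cc (i + 1) (m + 1) - cc (i + 1) m) = cc i m + dl ^ 2 * cc i (m + 1) := by
  rw [cc_step (i + 1) m (i + 2) (by omega), cc_step i m (i + 2) (by omega)]
  have h1 : ∑ l ∈ range (i + 2), bb (i + 1) (l + 1) * (m.choose l) * kp ^ (l + 1)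
      = kp * cc i m + dl * ∑ l ∈ range (i + 2), bb i (l + 1) * (m.choose l) * kp ^ (l + 1) := by
    rw [cc_eq i m (i + 2) (by omega), mul_sum, mul_sum, ← sum_add_distrib]
    refine sum_congr rfl fun l _ => ?_
    rw [bb_succ]
    ring
  rw [h1]
  linear_combination (cc i m) * dl_kp

theorem VV_rec (i m : ℕ) :
    VV (i + 1) (m + 1) - dl * VV i (m + 1) = VV i m + dl * VV (i + 1) m := by
  simp only [VV_eq]
  have := cc_rec i m
  rw [pow_succ]
  linear_combination dl ^ m * this

theorem VV_zero_left (m : ℕ) : VV 0 m = dl ^ m := by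
  simp [VV]

theorem VV_zero_right (i : ℕ) : VV i 0 = dl ^ i := by
  rw [VV_eq]
  unfold cc
  rw [sum_range_succ', sum_eq_zero]
  · simp
  · intro l _
    simp

theorem VV_tendsto (i : ℕ) : Tendsto (fun m => VV i m) atTop (𝓝 0) := by
  have h1 : ∀ l ∈ range (i + 1), Tendsto
      (fun m : ℕ => dl ^ m * ((i.choose l : ℝ) * (m.choose l) * kp ^ l * dl ^ (i - l))) atTop (𝓝 0) := by
    intro l _
    have h2 : Tendsto (fun m : ℕ => (m : ℝ) ^ l * dl ^ m) atTop (𝓝 0) :=
      tendsto_pow_const_mul_const_pow_of_abs_lt_one l (by rw [abs_of_pos dl_pos]; exact dl_lt)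
    have h3 : Tendsto (fun m : ℕ => ((m.choose l : ℕ) : ℝ) * dl ^ m) atTop (𝓝 0) := by
      refine squeeze_zero (fun m => ?_) (fun m => ?_) h2
      · have := dl_pos
        positivity
      · refine mul_le_mul_of_nonneg_right ?_ (pow_nonneg dl_pos.le _)
        exact_mod_cast Nat.choose_le_pow m l
    have h4 := h3.const_mul ((i.choose l : ℝ) * kp ^ l * dl ^ (i - l))
    rw [mul_zero] at h4
    refine h4.congr fun m => ?_
    ring
  have h2 := tendsto_finsetSum (range (i + 1)) h1
  rw [sum_const_zero] at h2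
  refine h2.congr fun m => ?_
  rw [← mul_sum]
  rfl

/-! ### power series -/

abbrev PS := PowerSeries ℝ
abbrev BB := PowerSeries (PowerSeries ℝ)

/-- series in `x` -/
noncomputable def fx : PS →+* BB := PowerSeries.C
/-- series in `y` -/
noncomputable def fy : PS →+* BB := PowerSeries.map PowerSeries.C
/-- coefficients -/
noncomputable def cf (i j : ℕ) (F : BB) : ℝ := PowerSeries.coeff i (PowerSeries.coeff j F)

theorem cf_xy (i j : ℕ) (f g : PS) :
    cf i j (fx f * fy g) = PowerSeries.coeff i f * PowerSeries.coeff j g := by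
  unfold cf fx fy
  rw [PowerSeries.coeff_C_mul, PowerSeries.coeff_map, PowerSeries.coeff_mul_C]

theorem cf_sub (i j : ℕ) (F G : BB) : cf i j (F - G) = cf i j F - cf i j G := by
  unfold cf
  rw [map_sub, map_sub]

theorem cf_sum (i j L : ℕ) (F : ℕ → BB) : cf i j (∑ k ∈ range L, F k) = ∑ k ∈ range L, cf i j (F k) := by
  unfold cf
  rw [map_sum, map_sum]

theorem cf_cst (i j : ℕ) (r : ℝ) (F : BB) : cf i j (fx (PowerSeries.C r) * F) = r * cf i j F := by
  unfold cf fx
  rw [PowerSeries.coeff_C_mul, PowerSeries.coeff_C_mul]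

theorem fy_C (r : ℝ) : fy (PowerSeries.C r) = fx (PowerSeries.C r) := by
  unfold fx fy
  rw [PowerSeries.map_C]

/-- tending to zero coefficientwise -/
def Z (G : ℕ → BB) : Prop := ∀ i j, Tendsto (fun L => cf i j (G L)) atTop (𝓝 0)

theorem Z_mul (F : BB) (G : ℕ → BB) (h : Z G) : Z (fun L => F * G L) := by
  intro i j
  have h1 : ∀ L, cf i j (F * G L) = ∑ p ∈ antidiagonal j, ∑ q ∈ antidiagonal i,
      cf q.1 p.1 F * cf q.2 p.2 (G L) := by
    intro L
    unfold cf
    rw [PowerSeries.coeff_mul, map_sum]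
    refine sum_congr rfl fun p _ => ?_
    rw [PowerSeries.coeff_mul]
  simp only [h1]
  have h2 : (0 : ℝ) = ∑ p ∈ antidiagonal j, ∑ q ∈ antidiagonal i, cf q.1 p.1 F * 0 := by simp
  rw [h2]
  exact tendsto_finsetSum _ fun p _ => tendsto_finsetSum _ fun q _ => (h q.2 p.2).const_mul _

theorem Z_sub (G H : ℕ → BB) (hG : Z G) (hH : Z H) : Z (fun L => G L - H L) := by
  intro i j
  simp only [cf_sub]
  have := (hG i j).sub (hH i j)
  rwa [sub_zero] at this

/-- columns of the second frame -/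
noncomputable def gm (m : ℕ) : PS := PowerSeries.mk fun i => VV i m

/-- columns of the first frame -/
noncomputable def rm (m : ℕ) : PS := PowerSeries.mk fun i => ((rr i m : ℤ) : ℝ)

open PowerSeries in
theorem gm_zero : (1 - C dl * X) * gm 0 = 1 := by
  ext i
  rw [sub_mul, one_mul, mul_assoc, map_sub, coeff_C_mul]
  cases i with
  | zero => simp [gm, VV_zero_right]
  | succ i =>
    rw [coeff_succ_X_mul, gm, coeff_mk, coeff_mk, VV_zero_right, VV_zero_right, coeff_one,
      if_neg (by omega), pow_succ]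
    ring

open PowerSeries in
theorem gm_succ (m : ℕ) : (1 - C dl * X) * gm (m + 1) = (X + C dl) * gm m := by
  ext i
  rw [sub_mul, one_mul, mul_assoc, map_sub, coeff_C_mul, add_mul, map_add, coeff_C_mul]
  cases i with
  | zero => 
    simp [gm, VV_zero_left, pow_succ]
    ring
  | succ i =>
    rw [coeff_succ_X_mul, coeff_succ_X_mul, gm, gm, coeff_mk, coeff_mk, coeff_mk, coeff_mk]
    exact VV_rec i m

theorem rr_supp (i t : ℕ) (h : 2 * i + 2 ≤ t) : rr i t = 0 := by
  induction i generalizing t with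
  | zero =>
    rw [rr, if_neg (by omega)]
  | succ i ih =>
    rw [rr, if_neg (by omega), ih (t - 1) (by omega), ih t (by omega), if_neg (show t ≠ 1 by omega),
      ih (t - 2) (by omega)]
    simp

theorem rr_even (i k : ℕ) : rr (i + 1) (2 * k + 2) = rr i (2 * k + 1) := by
  rw [rr, if_neg (by omega), if_neg (by omega)]
  simp

theorem rr_zero (i : ℕ) : rr (i + 1) 0 = 0 := by
  rw [rr]; simp

theorem rr_one (i : ℕ) : rr (i + 1) 1 = rr i 0 + rr i 1 := by
  rw [rr]; simp

theorem rr_odd (i k : ℕ) :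
    rr (i + 1) (2 * k + 3) = rr i (2 * k + 2) + rr i (2 * k + 3) + rr i (2 * k + 1) := by
  rw [rr, if_neg (by omega), if_pos (by omega), if_neg (by omega)]
  rw [show 2 * k + 3 - 1 = 2 * k + 2 by omega, show 2 * k + 3 - 2 = 2 * k + 1 by omega]
  ring

open PowerSeries in
theorem rm_zero : rm 0 = 1 := by
  ext i
  cases i with
  | zero => simp [rm, rr]
  | succ i => rw [rm, coeff_mk, rr_zero, coeff_one, if_neg (by omega)]; simp

open PowerSeries in
theorem rm_even (k : ℕ) : rm (2 * k + 2) = X * rm (2 * k + 1) := by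
  ext i
  cases i with
  | zero => simp [rm, rr]
  | succ i => rw [coeff_succ_X_mul, rm, rm, coeff_mk, coeff_mk, rr_even]

open PowerSeries in
theorem rm_odd (k : ℕ) : (1 - X) * rm (2 * k + 1) = (1 + X) * rm (2 * k) := by
  cases k with
  | zero =>
    ext i
    rw [sub_mul, one_mul, map_sub, add_mul, one_mul, map_add]
    cases i with
    | zero => simp [rm, rr]
    | succ i =>
      rw [coeff_succ_X_mul, coeff_succ_X_mul, rm, rm, coeff_mk, coeff_mk, coeff_mk, coeff_mk]
      rw [show 2 * 0 + 1 = 1 by rfl, show 2 * 0 = 0 by rfl, rr_one, rr_zero]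
      push_cast
      ring
  | succ k =>
    have h1 : rm (2 * (k + 1) + 1) = X * (rm (2 * k + 2) + rm (2 * k + 3) + rm (2 * k + 1)) := by
      ext i
      cases i with
      | zero => simp [rm, rr]
      | succ i =>
        rw [coeff_succ_X_mul, map_add, map_add, rm, rm, rm, rm, coeff_mk, coeff_mk, coeff_mk, coeff_mk,
          show 2 * (k + 1) + 1 = 2 * k + 3 by ring, rr_odd]
        push_cast
        ring
    have h2 := rm_even k
    rw [show 2 * (k + 1) + 1 = 2 * k + 3 by ring] at h1 ⊢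
    rw [show 2 * (k + 1) = 2 * k + 2 by ring]
    linear_combination h1 - h2

/-! ### algebra in a commutative ring -/

theorem telesc {A : Type*} [CommRing A] (T : ℕ → A) (U W : A) (h : ∀ k, U * T (k + 1) = W * T k)
    (L : ℕ) : (U - W) * ∑ k ∈ range L, T k = U * T 0 - U * T L := by
  induction L with
  | zero => simp
  | succ L ih =>
    rw [sum_range_succ, mul_add, ih]
    linear_combination h L

/-- the second frame -/
noncomputable def TT (k : ℕ) : BB :=
  fx (gm (2 * k)) * fy (gm (2 * k + 1)) - fx (gm (2 * k + 1)) * fy (gm (2 * k))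

/-- the first frame -/
noncomputable def RT (k : ℕ) : BB :=
  fx (rm (2 * k)) * fy (rm (2 * k + 1)) - fx (rm (2 * k + 1)) * fy (rm (2 * k))

noncomputable def EE (k : ℕ) : BB := fx (rm (2 * k)) * fy (rm (2 * k))

/-- the variables -/
noncomputable def xx : BB := fx PowerSeries.X
noncomputable def yy : BB := fy PowerSeries.X
noncomputable def DD : BB := (1 + xx * yy) * (1 - xx - yy - xx * yy)
noncomputable def kc (r : ℝ) : BB := fx (PowerSeries.C r)

theorem kc_dl : kc dl ^ 2 + 2 * kc dl = 1 := by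
  unfold kc
  have : (PowerSeries.C dl : PS) ^ 2 + 2 * PowerSeries.C dl = 1 := by
    rw [← map_pow, show (2 : PS) = PowerSeries.C (2 : ℝ) from (map_ofNat PowerSeries.C 2).symm, ← map_mul, ← map_add, dl_eq, map_one]
  rw [← map_pow, show (2 : BB) = fx (2 : PS) from (map_ofNat fx 2).symm, ← map_mul, ← map_add, this, map_one]

theorem kc_e : kc (2 / (1 + dl ^ 2)) * (1 + kc dl ^ 2) = 2 := by
  unfold kc
  have h1 : (2 / (1 + dl ^ 2)) * (1 + dl ^ 2) = 2 := by
    have : (1 + dl ^ 2) ≠ 0 := by positivity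
    field_simp
  have : (PowerSeries.C (2 / (1 + dl ^ 2)) : PS) * (1 + PowerSeries.C dl ^ 2) = 2 := by
    rw [← map_pow, show (1 : PS) = PowerSeries.C (1 : ℝ) by simp, ← map_add, ← map_mul, h1]
    exact map_ofNat PowerSeries.C 2
  rw [← map_pow, show (1 : BB) = fx (1 : PS) from (map_one fx).symm, ← map_add, ← map_mul, this]
  exact map_ofNat fx 2

theorem gx_succ (m : ℕ) : (1 - kc dl * xx) * fx (gm (m + 1)) = (xx + kc dl) * fx (gm m) := by
  have := congrArg fx (gm_succ m)
  simp only [map_mul, map_sub, map_add, map_one] at this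
  exact this

theorem gy_succ (m : ℕ) : (1 - kc dl * yy) * fy (gm (m + 1)) = (yy + kc dl) * fy (gm m) := by
  have := congrArg fy (gm_succ m)
  rw [map_mul, map_mul, map_sub, map_add, map_one, map_mul, fy_C] at this
  exact this

theorem gx_zero : (1 - kc dl * xx) * fx (gm 0) = 1 := by
  have := congrArg fx gm_zero
  simp only [map_mul, map_sub, map_add, map_one] at this
  exact this

theorem gy_zero : (1 - kc dl * yy) * fy (gm 0) = 1 := by
  have := congrArg fy gm_zero
  rw [map_mul, map_sub, map_one, map_mul, fy_C] at this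
  exact this

theorem TT_step (k : ℕ) : ((1 - kc dl * xx) ^ 2 * (1 - kc dl * yy) ^ 2) * TT (k + 1)
    = ((xx + kc dl) ^ 2 * (yy + kc dl) ^ 2) * TT k := by
  have h1 : ∀ m, (1 - kc dl * xx) ^ 2 * fx (gm (m + 2)) = (xx + kc dl) ^ 2 * fx (gm m) := by
    intro m
    linear_combination (1 - kc dl * xx) * gx_succ (m + 1) + (xx + kc dl) * gx_succ m
  have h2 : ∀ m, (1 - kc dl * yy) ^ 2 * fy (gm (m + 2)) = (yy + kc dl) ^ 2 * fy (gm m) := by
    intro m
    linear_combination (1 - kc dl * yy) * gy_succ (m + 1) + (yy + kc dl) * gy_succ m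
  unfold TT
  rw [show 2 * (k + 1) + 1 = (2 * k + 1) + 2 by ring, show 2 * (k + 1) = 2 * k + 2 by ring]
  calc ((1 - kc dl * xx) ^ 2 * (1 - kc dl * yy) ^ 2) *
        (fx (gm (2 * k + 2)) * fy (gm (2 * k + 1 + 2)) - fx (gm (2 * k + 1 + 2)) * fy (gm (2 * k + 2)))
      = ((1 - kc dl * xx) ^ 2 * fx (gm (2 * k + 2))) * ((1 - kc dl * yy) ^ 2 * fy (gm (2 * k + 1 + 2)))
        - ((1 - kc dl * xx) ^ 2 * fx (gm (2 * k + 1 + 2))) * ((1 - kc dl * yy) ^ 2 * fy (gm (2 * k + 2))) := by
        ring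
    _ = _ := by
        rw [h1, h2, h1, h2]
        ring

theorem TT_zero : ((1 - kc dl * xx) ^ 2 * (1 - kc dl * yy) ^ 2) * TT 0
    = (1 + kc dl ^ 2) * (yy - xx) := by
  have h1 := gx_zero
  have h2 := gy_zero
  have h3 := gx_succ 0
  have h4 := gy_succ 0
  unfold TT
  rw [show 2 * 0 + 1 = 0 + 1 by rfl, show 2 * 0 = 0 by rfl]
  calc ((1 - kc dl * xx) ^ 2 * (1 - kc dl * yy) ^ 2) *
        (fx (gm 0) * fy (gm (0 + 1)) - fx (gm (0 + 1)) * fy (gm 0))
      = (1 - kc dl * xx) * (((1 - kc dl * xx) * fx (gm 0)) * ((1 - kc dl * yy) * ((1 - kc dl * yy) * fy (gm (0 + 1)))))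
        - ((1 - kc dl * xx) * ((1 - kc dl * xx) * fx (gm (0 + 1)))) * ((1 - kc dl * yy) * ((1 - kc dl * yy) * fy (gm 0))) := by
        ring
    _ = (1 - kc dl * xx) * (((1 - kc dl * xx) * fx (gm 0)) * ((yy + kc dl) * ((1 - kc dl * yy) * fy (gm 0))))
        - ((xx + kc dl) * ((1 - kc dl * xx) * fx (gm 0))) * ((1 - kc dl * yy) * ((1 - kc dl * yy) * fy (gm 0))) := by
        rw [h3, h4]
        ring
    _ = _ := by
        rw [h1, h2]
        ring

theorem V_side (L : ℕ) : DD * (4 * kc dl * ∑ k ∈ range L, TT k)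
    = 2 * (yy - xx) - kc (2 / (1 + dl ^ 2)) * ((1 - kc dl * xx) ^ 2 * (1 - kc dl * yy) ^ 2) * TT L := by
  have h1 := telesc TT _ _ TT_step L
  rw [TT_zero] at h1
  have h2 := kc_e
  have h3 := kc_dl
  set c := kc dl with hc
  set e := kc (2 / (1 + dl ^ 2)) with he
  set S := ∑ k ∈ range L, TT k with hS
  have hQ : (1 - c * xx) ^ 2 * (1 - c * yy) ^ 2 - (xx + c) ^ 2 * (yy + c) ^ 2
      = 2 * c * (1 + c ^ 2) * DD := by
    unfold DD
    linear_combination (-((1 - xx * yy) * (1 + c ^ 2) * (1 + xx * yy))) * h3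
  rw [hQ] at h1
  linear_combination e * h1 + (yy - xx - 2 * c * DD * S) * h2

theorem rx_odd (k : ℕ) : (1 - xx) * fx (rm (2 * k + 1)) = (1 + xx) * fx (rm (2 * k)) := by
  have := congrArg fx (rm_odd k)
  simp only [map_mul, map_sub, map_add, map_one] at this
  exact this

theorem ry_odd (k : ℕ) : (1 - yy) * fy (rm (2 * k + 1)) = (1 + yy) * fy (rm (2 * k)) := by
  have := congrArg fy (rm_odd k)
  simp only [map_mul, map_sub, map_add, map_one] at this
  exact this

theorem rx_even (k : ℕ) : fx (rm (2 * k + 2)) = xx * fx (rm (2 * k + 1)) := by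
  have := congrArg fx (rm_even k)
  simp only [map_mul, map_sub, map_add, map_one] at this
  exact this

theorem ry_even (k : ℕ) : fy (rm (2 * k + 2)) = yy * fy (rm (2 * k + 1)) := by
  have := congrArg fy (rm_even k)
  simp only [map_mul, map_sub, map_add, map_one] at this
  exact this

theorem EE_step (k : ℕ) : ((1 - xx) * (1 - yy)) * EE (k + 1) = (xx * yy * (1 + xx) * (1 + yy)) * EE k := by
  unfold EE
  rw [show 2 * (k + 1) = 2 * k + 2 by ring, rx_even, ry_even]
  have h1 := rx_odd k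
  have h2 := ry_odd k
  calc ((1 - xx) * (1 - yy)) * (xx * fx (rm (2 * k + 1)) * (yy * fy (rm (2 * k + 1))))
      = xx * yy * ((1 - xx) * fx (rm (2 * k + 1))) * ((1 - yy) * fy (rm (2 * k + 1))) := by ring
    _ = _ := by rw [h1, h2]; ring

theorem RT_EE (k : ℕ) : ((1 - xx) * (1 - yy)) * RT k = 2 * (yy - xx) * EE k := by
  unfold RT EE
  have h1 := rx_odd k
  have h2 := ry_odd k
  calc ((1 - xx) * (1 - yy)) * (fx (rm (2 * k)) * fy (rm (2 * k + 1)) - fx (rm (2 * k + 1)) * fy (rm (2 * k)))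
      = (1 - xx) * fx (rm (2 * k)) * ((1 - yy) * fy (rm (2 * k + 1)))
        - ((1 - xx) * fx (rm (2 * k + 1))) * ((1 - yy) * fy (rm (2 * k))) := by ring
    _ = _ := by rw [h1, h2]; ring

theorem unit_of (F : BB) (h : PowerSeries.constantCoeff (PowerSeries.constantCoeff F) = 1) :
    ∃ G : BB, G * F = 1 := by
  have h1 : IsUnit F := by
    rw [PowerSeries.isUnit_iff_constantCoeff, PowerSeries.isUnit_iff_constantCoeff, h]
    exact isUnit_one
  obtain ⟨u, rfl⟩ := h1
  exact ⟨(u⁻¹ : BBˣ), Units.inv_mul u⟩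

theorem cc_xx : PowerSeries.constantCoeff (PowerSeries.constantCoeff xx) = 0 := by
  unfold xx fx
  simp

theorem cc_yy : PowerSeries.constantCoeff (PowerSeries.constantCoeff yy) = 0 := by
  unfold yy fy
  simp

theorem R_side (L : ℕ) : DD * ∑ k ∈ range L, RT k = 2 * (yy - xx) - 2 * (yy - xx) * EE L := by
  have h1 := telesc EE _ _ EE_step L
  have h2 : EE 0 = 1 := by
    unfold EE
    rw [show 2 * 0 = 0 by rfl, rm_zero, map_one, map_one, one_mul]
  rw [h2] at h1
  have h3 : ((1 - xx) * (1 - yy)) * ∑ k ∈ range L, RT k = 2 * (yy - xx) * ∑ k ∈ range L, EE k := by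
    rw [mul_sum, mul_sum]
    exact sum_congr rfl fun k _ => RT_EE k
  obtain ⟨G, hG⟩ := unit_of ((1 - xx) * (1 - yy)) (by
    rw [map_mul, map_mul, map_sub, map_sub, map_sub, map_sub, cc_xx, cc_yy]
    simp)
  have h4 : ((1 - xx) * (1 - yy)) * (DD * ∑ k ∈ range L, RT k)
      = ((1 - xx) * (1 - yy)) * (2 * (yy - xx) - 2 * (yy - xx) * EE L) := by
    unfold DD
    linear_combination ((1 + xx * yy) * (1 - xx - yy - xx * yy)) * h3 + 2 * (yy - xx) * h1
  have h5 := congrArg (fun F => G * F) h4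
  simp only [← mul_assoc, hG, one_mul] at h5
  simpa only [mul_assoc] using h5

end Ker

open Ker

theorem Kf_cf (L i j : ℕ) : Kf VV L i j = cf i j (∑ k ∈ range L, TT k) := by
  rw [cf_sum]
  unfold Kf TT
  refine sum_congr rfl fun k _ => ?_
  rw [cf_sub, cf_xy, cf_xy]
  simp only [gm, PowerSeries.coeff_mk]

theorem Kf_rr_cf (L i j : ℕ) : ((Kf rr L i j : ℤ) : ℝ) = cf i j (∑ k ∈ range L, RT k) := by
  rw [cf_sum]
  unfold Kf RT
  push_cast
  refine sum_congr rfl fun k _ => ?_
  rw [cf_sub, cf_xy, cf_xy]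
  simp only [rm, PowerSeries.coeff_mk]

theorem Kf_rr_stable (i j L : ℕ) (h : i + j + 2 ≤ L) : Kf rr L i j = Kf rr (i + j + 2) i j := by
  unfold Kf
  symm
  refine sum_subset (range_subset_range.2 h) fun k _ hk => ?_
  rw [mem_range, not_lt] at hk
  rw [rr_supp i (2 * k) (by omega), rr_supp i (2 * k + 1) (by omega)]
  simp

theorem s_K : S_K := by
  intro i j
  obtain ⟨I, hI⟩ := unit_of DD (by
    unfold DD
    rw [map_mul, map_mul, map_add, map_add, map_sub, map_sub, map_sub, map_sub, map_sub, map_sub,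
      map_mul, map_mul, cc_xx, cc_yy]
    simp)
  have hZT : Z TT := by
    intro a b
    have h1 : ∀ L, cf a b (TT L) = VV a (2 * L) * VV b (2 * L + 1) - VV a (2 * L + 1) * VV b (2 * L) := by
      intro L
      unfold TT
      rw [cf_sub, cf_xy, cf_xy]
      simp only [gm, PowerSeries.coeff_mk]
    simp only [h1]
    have he : Tendsto (fun L : ℕ => 2 * L) atTop atTop :=
      tendsto_atTop_mono (fun L => by simp only [id]; omega) tendsto_id
    have ho : Tendsto (fun L : ℕ => 2 * L + 1) atTop atTop := 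
      tendsto_atTop_mono (fun L => by simp only [id]; omega) tendsto_id
    have h2 := (((VV_tendsto a).comp he).mul ((VV_tendsto b).comp ho)).sub
      (((VV_tendsto a).comp ho).mul ((VV_tendsto b).comp he))
    simpa using h2
  have hZE : Z EE := by
    intro a b
    have h1 : ∀ᶠ L in atTop, cf a b (EE L) = 0 := by
      filter_upwards [eventually_ge_atTop (a + 1)] with L hL
      unfold EE
      rw [cf_xy]
      simp only [rm, PowerSeries.coeff_mk]
      rw [rr_supp a (2 * L) (by omega)]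
      simp
    exact (tendsto_congr' h1).2 tendsto_const_nhds
  have hdiff : ∀ L, (fx (PowerSeries.C (4 * dl)) * ∑ k ∈ range L, TT k) - ∑ k ∈ range L, RT k
      = (I * (2 * (yy - xx))) * EE L
        - (I * (kc (2 / (1 + dl ^ 2)) * ((1 - kc dl * xx) ^ 2 * (1 - kc dl * yy) ^ 2))) * TT L := by
    intro L
    have h1 := V_side L
    have h2 := R_side L
    have h3 : fx (PowerSeries.C (4 * dl)) = 4 * kc dl := by
      unfold kc
      rw [map_mul, map_mul, show (PowerSeries.C (4 : ℝ) : PS) = 4 from map_ofNat PowerSeries.C 4,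
        map_ofNat]
    rw [h3]
    linear_combination I * h1 - I * h2 - (4 * kc dl * (∑ k ∈ range L, TT k) - ∑ k ∈ range L, RT k) * hI
  have hZ := Z_sub _ _ (Z_mul (I * (2 * (yy - xx))) EE hZE)
    (Z_mul (I * (kc (2 / (1 + dl ^ 2)) * ((1 - kc dl * xx) ^ 2 * (1 - kc dl * yy) ^ 2))) TT hZT)
  have h1 := hZ i j
  simp only [← hdiff, cf_sub, cf_cst, ← Kf_cf, ← Kf_rr_cf] at h1
  have h2 : ∀ᶠ L in atTop, 4 * dl * Kf VV L i j
      = (4 * dl * Kf VV L i j - ((Kf rr L i j : ℤ) : ℝ)) + ((Kf rr (i + j + 2) i j : ℤ) : ℝ) := by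
    filter_upwards [eventually_ge_atTop (i + j + 2)] with L hL
    rw [Kf_rr_stable i j L hL]
    ring
  refine (tendsto_congr' h2).2 ?_
  have h3 := h1.add_const ((Kf rr (i + j + 2) i j : ℤ) : ℝ)
  rwa [zero_add] at h3

/-! ### the boundary sums -/

open PowerSeries in
theorem gm_two (m : ℕ) : (1 - C dl * X) ^ 2 * gm (m + 2) = (X + C dl) ^ 2 * gm m := by
  linear_combination (1 - C dl * X) * gm_succ (m + 1) + (X + C dl) * gm_succ m

open PowerSeries in
theorem C_dl : (C dl : PS) ^ 2 + 2 * C dl = 1 := by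
  rw [← map_pow, show (2 : PS) = PowerSeries.C (2 : ℝ) from (map_ofNat PowerSeries.C 2).symm,
    ← map_mul, ← map_add, dl_eq, map_one]

open PowerSeries in
theorem V_sum (L : ℕ) : (1 - 2 * X - X ^ 2 : PS) * (2 * C dl * ∑ k ∈ range L, (gm (2 * k) + C dl * gm (2 * k + 1)))
    = (1 + C dl ^ 2) - (1 - C dl * X) ^ 2 * (gm (2 * L) + C dl * gm (2 * L + 1)) := by
  have h1 := telesc (fun k => gm (2 * k) + C dl * gm (2 * k + 1)) ((1 - C dl * X) ^ 2)
    ((X + C dl) ^ 2) (fun k => by
      change (1 - C dl * X) ^ 2 * (gm (2 * k + 2) + C dl * gm ((2 * k + 1) + 2)) = _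
      linear_combination gm_two (2 * k) + C dl * gm_two (2 * k + 1)) L
  have h2 : (1 - C dl * X) ^ 2 * (gm (2 * 0) + C dl * gm (2 * 0 + 1)) = 1 + C dl ^ 2 := by
    have h3 := gm_zero
    have h4 := gm_succ 0
    rw [show 2 * 0 + 1 = 0 + 1 by rfl, show 2 * 0 = 0 by rfl]
    linear_combination ((1 - C dl * X) + C dl * (X + C dl)) * h3 + (C dl * (1 - C dl * X)) * h4
  have h3 := C_dl
  linear_combination h1 + h2 + ((1 - X ^ 2) * (∑ k ∈ range L, (gm (2 * k) + C dl * gm (2 * k + 1)))) * h3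

open PowerSeries in
theorem R_sum (L : ℕ) : (1 - 2 * X - X ^ 2 : PS) * ∑ k ∈ range L, (rm (2 * k) + rm (2 * k + 1))
    = 2 - 2 * rm (2 * L) := by
  have h1 := telesc (fun k => rm (2 * k)) (1 - X) (X * (1 + X)) (fun k => by
      change (1 - X) * rm (2 * k + 2) = _
      rw [rm_even]
      linear_combination X * rm_odd k) L
  have h2 : (1 - X : PS) * ∑ k ∈ range L, (rm (2 * k) + rm (2 * k + 1)) = 2 * ∑ k ∈ range L, rm (2 * k) := by
    rw [mul_sum, mul_sum]
    refine sum_congr rfl fun k _ => ?_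
    linear_combination rm_odd k
  have h3 : rm (2 * 0) = 1 := rm_zero
  have h4 : (1 - X : PS) ≠ 0 := by
    intro h
    have := congrArg (constantCoeff) h
    simp at this
  apply mul_left_cancel₀ h4
  linear_combination (1 - 2 * X - X ^ 2) * h2 + 2 * h1 + 2 * (1 - X) * h3

theorem s_F : S_F := by
  intro i
  obtain ⟨I, hI⟩ : ∃ I : PS, I * (1 - 2 * PowerSeries.X - PowerSeries.X ^ 2) = 1 := by
    have h1 : IsUnit (1 - 2 * PowerSeries.X - PowerSeries.X ^ 2 : PS) := by
      rw [PowerSeries.isUnit_iff_constantCoeff]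
      simp
    obtain ⟨u, hu⟩ := h1
    exact ⟨(u⁻¹ : PSˣ), by rw [← hu]; exact Units.inv_mul u⟩
  have hdl := dl_pos
  -- coefficientwise convergence to zero
  have hZmul : ∀ (F : PS) (G : ℕ → PS), (∀ a, Tendsto (fun L => PowerSeries.coeff a (G L)) atTop (𝓝 0)) →
      ∀ a, Tendsto (fun L => PowerSeries.coeff a (F * G L)) atTop (𝓝 0) := by
    intro F G hG a
    simp only [PowerSeries.coeff_mul]
    have h2 : (0 : ℝ) = ∑ p ∈ antidiagonal a, PowerSeries.coeff p.1 F * 0 := by simp
    rw [h2]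
    exact tendsto_finsetSum _ fun p _ => (hG p.2).const_mul _
  have he : Tendsto (fun L : ℕ => 2 * L) atTop atTop :=
    tendsto_atTop_mono (fun L => by simp only [id]; omega) tendsto_id
  have ho : Tendsto (fun L : ℕ => 2 * L + 1) atTop atTop :=
    tendsto_atTop_mono (fun L => by simp only [id]; omega) tendsto_id
  have hZ1 : ∀ a, Tendsto (fun L => PowerSeries.coeff a
      (gm (2 * L) + PowerSeries.C dl * gm (2 * L + 1))) atTop (𝓝 0) := by
    intro a
    have h1 := ((VV_tendsto a).comp he).add (((VV_tendsto a).comp ho).const_mul dl)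
    simp only [mul_zero, add_zero] at h1
    refine h1.congr fun L => ?_
    rw [map_add, PowerSeries.coeff_C_mul]
    simp only [gm, PowerSeries.coeff_mk, Function.comp]
  have hZ2 : ∀ a, Tendsto (fun L => PowerSeries.coeff a (rm (2 * L))) atTop (𝓝 0) := by
    intro a
    have h1 : ∀ᶠ L in atTop, PowerSeries.coeff a (rm (2 * L)) = 0 := by
      filter_upwards [eventually_ge_atTop (a + 1)] with L hL
      simp only [rm, PowerSeries.coeff_mk]
      rw [rr_supp a (2 * L) (by omega)]
      simp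
    exact (tendsto_congr' h1).2 tendsto_const_nhds
  set e : ℝ := √2 / (2 * dl) with he'
  have he1 : e * (2 * dl) = √2 := by
    rw [he']
    field_simp
  have he2 : e * (1 + dl ^ 2) = 2 := by
    have h1 : (2 * dl) * (e * (1 + dl ^ 2)) = (2 * dl) * 2 := by
      have h2 := dl_kp
      have h3 : √2 * kp = 4 := by
        unfold kp
        have := Real.mul_self_sqrt (show (0 : ℝ) ≤ 2 by norm_num)
        linarith
      calc (2 * dl) * (e * (1 + dl ^ 2)) = (e * (2 * dl)) * (dl * kp) := by rw [h2]; ring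
        _ = (√2 * kp) * dl := by rw [he1]; ring
        _ = (2 * dl) * 2 := by rw [h3]; ring
    exact mul_left_cancel₀ (by positivity) h1
  have hdiff : ∀ L, PowerSeries.C (√2) * ∑ k ∈ range L, (gm (2 * k) + PowerSeries.C dl * gm (2 * k + 1))
      - ∑ k ∈ range L, (rm (2 * k) + rm (2 * k + 1))
      = (2 * I) * rm (2 * L) - (I * (PowerSeries.C e * (1 - PowerSeries.C dl * PowerSeries.X) ^ 2)) *
        (gm (2 * L) + PowerSeries.C dl * gm (2 * L + 1)) := by
    intro L
    have h1 := V_sum L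
    have h2 := R_sum L
    have h3 : (PowerSeries.C e : PS) * (2 * PowerSeries.C dl) = PowerSeries.C (√2) := by
      rw [← he1, map_mul, map_mul, map_ofNat]
    have h4 : (PowerSeries.C e : PS) * (1 + PowerSeries.C dl ^ 2) = 2 := by
      rw [← map_pow, show (1 : PS) = PowerSeries.C (1 : ℝ) by simp, ← map_add, ← map_mul, he2]
      exact map_ofNat PowerSeries.C 2
    set S1 := ∑ k ∈ range L, (gm (2 * k) + PowerSeries.C dl * gm (2 * k + 1))
    set S2 := ∑ k ∈ range L, (rm (2 * k) + rm (2 * k + 1))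
    linear_combination (I * PowerSeries.C e) * h1 - I * h2 + I * h4
      - (I * (1 - 2 * PowerSeries.X - PowerSeries.X ^ 2) * S1) * h3
      - (PowerSeries.C (√2) * S1 - S2) * hI
  have hlim := (hZmul (2 * I) _ hZ2 i).sub (hZmul (I * (PowerSeries.C e *
    (1 - PowerSeries.C dl * PowerSeries.X) ^ 2)) _ hZ1 i)
  rw [sub_zero] at hlim
  have hA : ∀ L, ∑ t ∈ range (2 * L), (if t % 2 = 0 then 1 else dl) * VV i t
      = PowerSeries.coeff i (∑ k ∈ range L, (gm (2 * k) + PowerSeries.C dl * gm (2 * k + 1))) := by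
    intro L
    induction L with
    | zero => simp
    | succ L ih =>
      rw [show 2 * (L + 1) = 2 * L + 1 + 1 by ring, sum_range_succ, sum_range_succ, ih, sum_range_succ,
        map_add, map_add, PowerSeries.coeff_C_mul]
      simp only [gm, PowerSeries.coeff_mk]
      rw [if_pos (by omega), if_neg (by omega)]
      ring
  have hB : ∀ L, ((∑ t ∈ range (2 * L), rr i t : ℤ) : ℝ)
      = PowerSeries.coeff i (∑ k ∈ range L, (rm (2 * k) + rm (2 * k + 1))) := by
    intro L
    induction L with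
    | zero => simp
    | succ L ih =>
      rw [show 2 * (L + 1) = 2 * L + 1 + 1 by ring, sum_range_succ, sum_range_succ, Int.cast_add,
        Int.cast_add, ih, sum_range_succ, map_add, map_add]
      simp only [rm, PowerSeries.coeff_mk]
      ring
  have hstab : ∀ L, i + 1 ≤ L → ∑ t ∈ range (2 * L), rr i t = ∑ t ∈ range (2 * i + 2), rr i t := by
    intro L hL
    symm
    refine sum_subset (range_subset_range.2 (by omega)) fun t _ ht => ?_
    rw [mem_range, not_lt] at ht
    exact rr_supp i t ht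
  have h2 : ∀ᶠ L in atTop, √2 * ∑ t ∈ range (2 * L), (if t % 2 = 0 then 1 else dl) * VV i t
      = (PowerSeries.coeff i ((2 * I) * rm (2 * L)) - PowerSeries.coeff i
        ((I * (PowerSeries.C e * (1 - PowerSeries.C dl * PowerSeries.X) ^ 2)) *
        (gm (2 * L) + PowerSeries.C dl * gm (2 * L + 1))))
        + ((∑ t ∈ range (2 * i + 2), rr i t : ℤ) : ℝ) := by
    filter_upwards [eventually_ge_atTop (i + 1)] with L hL
    rw [← map_sub, ← hdiff L, map_sub, PowerSeries.coeff_C_mul, ← hA, ← hB, hstab L hL]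
    ring
  refine (tendsto_congr' h2).2 ?_
  have h3 := hlim.add_const ((∑ t ∈ range (2 * i + 2), rr i t : ℤ) : ℝ)
  rwa [zero_add] at h3

end Pool.Agent.R161.Az
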